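import Pool.Agent.Helper56K9.SO.Hs

/-!
# Project SO, leaf EXI (helper56)
-/

set_option autoImplicit false

namespace Pool.Agent.Helper56K9.SO

open Pool.Agent.Helper14K9.SO Pool.Agent.Y924.UF

section

variable {p : ℕ} [Fact p.Prime]

theorem lt_iff (hVAL : S_VAL) (x : LaurentSeries (ZMod p)) {y : LaurentSeries (ZMod p)}
    (hy : y ≠ 0) : Lt p (HahnSeries.single (1 : ℤ) (1 : ZMod p)) x y ↔
      x ≠ 0 ∧ HahnSeries.order x < HahnSeries.order y := by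
  have hval := (hVAL p).1
  unfold Lt
  simp only [← hval]
  rw [exists_OO hy]
  by_cases hx : x = 0
  · subst hx
    exact ⟨fun h => absurd (vle_zero _) h, fun h => absurd rfl h.1⟩
  · rw [vle_iff hx, not_le]
    exact ⟨fun h => ⟨hx, h⟩, fun h => h.2⟩

end

theorem exi : S_HS → S_SER → S_VAL → S_RES → S_FIN → S_EXI := by
  intro hHS hSER hVAL hRES hFIN p _ S hinf
  obtain ⟨H, hH, hHr⟩ := hHS p S hinf
  obtain ⟨s, hinj, hfin, hne, hunb⟩ := hSER p H hH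
  have hval := (hVAL p).1
  set τ : LaurentSeries (ZMod p) := HahnSeries.single (1 : ℤ) (1 : ZMod p) with hτ
  have hQ : ∀ g, InQ p S τ s g ↔ g ∈ QQ p H s := by
    intro g
    unfold InQ QQ
    simp only [Set.mem_ofPred_eq]
    refine and_congr_right fun hgs => ?_
    have hsg : s - g ≠ 0 := sub_ne_zero.2 (Ne.symm hgs)
    constructor
    · rintro ⟨r, hr, h1, h2⟩
      refine ⟨HahnSeries.order r, (hHr r hr g).1 h1, fun h hh hne => ?_⟩
      exact ((lt_iff hVAL h hsg).1 (h2 h ((hHr r hr h).2 hh) hne)).2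
    · rintro ⟨N, h1, h2⟩
      have hr := single_ne (p := p) N
      have hN := order_single (p := p) N
      refine ⟨HahnSeries.single N 1, hr, (hHr _ hr g).2 (by rw [hN]; exact h1), fun h hh hne => ?_⟩
      rw [hHr _ hr, hN] at hh
      exact (lt_iff hVAL h hsg).2 ⟨hne, h2 h hh hne⟩
  have hne' : ∀ g, InQ p S τ s g → s - g ≠ 0 := fun g hg => sub_ne_zero.2 (Ne.symm hg.1)
  refine ⟨s, (hVAL p).2, ?_, ?_, ?_, ?_, ?_, ?_, ?_, ?_⟩
  · rw [← hval]
    exact ⟨1, map_one _⟩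
  · intro x y hx hy
    rw [← hval] at hx hy ⊢
    obtain ⟨a, rfl⟩ := hx
    obtain ⟨b, rfl⟩ := hy
    exact ⟨a * b, map_mul _ _ _⟩
  · rw [hRES p]
    simp
  · intro z
    refine ⟨HahnSeries.C (-(z.coeff 0)), ?_, ?_⟩
    · rw [← map_pow, ZMod.pow_card]
    · rw [hRES p, HahnSeries.coeff_add]
      simp
  · intro g g' hg hg' h1 h2
    have e1 := hne' g hg
    have e2 := hne' g' hg'
    rw [lt_iff hVAL _ e2] at h1
    rw [lt_iff hVAL _ e1] at h2
    refine hinj ((hQ g).1 hg) ((hQ g').1 hg') ?_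
    by_contra hc
    rcases lt_or_gt_of_ne hc with h | h
    · exact h1 ⟨e1, h⟩
    · exact h2 ⟨e2, h⟩
  · intro g hg
    have hX : {x | InX p S τ s g x}.Finite := by
      refine (hfin g ((hQ g).1 hg)).subset ?_
      rintro x ⟨hx, hlt⟩
      exact ⟨(hQ x).1 hx, ((lt_iff hVAL _ (hne' g hg)).1 hlt).2⟩
    obtain ⟨b, c, hb, hc, h1, h2⟩ := (hFIN p _).1 hX
    refine ⟨b, c, hb, hc, ?_, ?_⟩
    · intro x hx
      obtain ⟨z, hz, hcz⟩ := h1 x hx
      exact ⟨z, (hval z).1 hz, hcz⟩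
    · rintro x y hx hy ⟨z, y', hz, hbz, hxy⟩
      exact h2 x y hx hy ⟨z, y', (hval z).2 hz, hbz, hxy⟩
  · obtain ⟨g, hg⟩ := hne
    exact ⟨g, (hQ g).2 hg⟩
  · intro g hg
    obtain ⟨g', hg', hlt⟩ := hunb g ((hQ g).1 hg)
    have hg'' := (hQ g').2 hg'
    exact ⟨g', hg'', (lt_iff hVAL _ (hne' g' hg'')).2 ⟨hne' g hg, hlt⟩⟩

end Pool.Agent.Helper56K9.SO
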