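import Pool.Agent.Helper14K9.SO.St

/-!
# Project SO, leaf SER (helper56)
-/

set_option autoImplicit false

namespace Pool.Agent.Helper56K9.SO

open Pool.Agent.Helper14K9.SO Pool.Agent.Y924.UF

section

variable {p : ℕ} [Fact p.Prime]

/-- `x` is divisible by `t ^ N` -/
def vle (N : ℤ) (x : LaurentSeries (ZMod p)) : Prop := ∀ n : ℤ, n < N → x.coeff n = 0

theorem vle_zero (N : ℤ) : vle N (0 : LaurentSeries (ZMod p)) := fun _ _ => rfl

theorem vle_iff {N : ℤ} {x : LaurentSeries (ZMod p)} (hx : x ≠ 0) :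
    vle N x ↔ N ≤ HahnSeries.order x := by
  constructor
  · intro h
    by_contra hc
    exact (HahnSeries.coeff_order_eq_zero.not.2 hx) (h _ (not_le.1 hc))
  · intro h n hn
    exact HahnSeries.coeff_eq_zero_of_lt_order (hn.trans_le h)

theorem vle_sub {N : ℤ} {x y : LaurentSeries (ZMod p)} (hx : vle N x) (hy : vle N y) :
    vle N (x - y) := fun n hn => by
  rw [HahnSeries.coeff_sub, hx n hn, hy n hn, sub_zero]

theorem vle_mono {N N' : ℤ} (h : N ≤ N') {x : LaurentSeries (ZMod p)} (hx : vle N' x) :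
    vle N x := fun n hn => hx n (hn.trans_le h)

theorem vle_order (x : LaurentSeries (ZMod p)) : vle (HahnSeries.order x) x := fun _ hn =>
  HahnSeries.coeff_eq_zero_of_lt_order hn

/-- a difference of two elements of the same order is not of smaller order -/
theorem order_sub_ge {x y : LaurentSeries (ZMod p)} {N : ℤ} (hxy : x - y ≠ 0)
    (hx : N ≤ HahnSeries.order x) (hy : N ≤ HahnSeries.order y) :
    N ≤ HahnSeries.order (x - y) :=
  (vle_iff hxy).1 (vle_sub (vle_mono hx (vle_order x)) (vle_mono hy (vle_order y)))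

theorem order_sub_eq {x y : LaurentSeries (ZMod p)} (hx : x ≠ 0)
    (h : HahnSeries.order x < HahnSeries.order y) :
    HahnSeries.order (x - y) = HahnSeries.order x := by
  have h1 : (x - y).coeff (HahnSeries.order x) ≠ 0 := by
    rw [HahnSeries.coeff_sub, HahnSeries.coeff_eq_zero_of_lt_order h, sub_zero]
    exact HahnSeries.coeff_order_eq_zero.not.2 hx
  have h2 : x - y ≠ 0 := by
    intro h0
    rw [h0] at h1
    exact h1 rfl
  exact le_antisymm (HahnSeries.order_le_of_coeff_ne_zero h1) (order_sub_ge h2 le_rfl h.le)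

end

theorem ser : S_SER := by
  intro p _ H hH
  obtain ⟨hfin, h0, hsub, hmono, hunb⟩ := hH
  have hadd : ∀ N x y, x ∈ H N → y ∈ H N → x + y ∈ H N := by
    intro N x y hx hy
    have h1 := hsub N x (0 - y) hx (hsub N 0 y (h0 N) hy)
    have : x - (0 - y) = x + y := by ring
    rwa [this] at h1
  have hnext : ∀ N : ℤ, ∃ q : ℤ × LaurentSeries (ZMod p), N ≤ q.1 ∧ q.2 ∈ H q.1 ∧ q.2 ≠ 0 ∧
      ∀ g ∈ H N, g ≠ 0 → HahnSeries.order g < HahnSeries.order q.2 := by
    intro N
    obtain ⟨M, hM⟩ := ((hfin N).image HahnSeries.order).bddAbove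
    obtain ⟨N', h, hh, hne, hMh⟩ := hunb (M + 1)
    refine ⟨(max N N', h), le_max_left _ _, hmono (le_max_right N N') hh, hne, ?_⟩
    intro g hg _
    have := hM (Set.mem_image_of_mem _ hg)
    change _ < HahnSeries.order h
    omega
  choose nx hnx1 hnx2 hnx3 hnx4 using hnext
  let Ns : ℕ → ℤ := fun k => Nat.rec (motive := fun _ => ℤ) 0 (fun _ N => (nx N).1) k
  have hNs : ∀ k, Ns (k + 1) = (nx (Ns k)).1 := fun k => rfl
  let hk : ℕ → LaurentSeries (ZMod p) := fun k => (nx (Ns k)).2
  have hk1 : ∀ k, hk k ∈ H (Ns (k + 1)) := fun k => hnx2 (Ns k)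
  have hk2 : ∀ k, hk k ≠ 0 := fun k => hnx3 (Ns k)
  have hk3 : ∀ k, ∀ g ∈ H (Ns k), g ≠ 0 → HahnSeries.order g < HahnSeries.order (hk k) :=
    fun k => hnx4 (Ns k)
  have hNm : ∀ k, Ns k ≤ Ns (k + 1) := fun k => hnx1 (Ns k)
  let o : ℕ → ℤ := fun k => HahnSeries.order (hk k)
  have ho : StrictMono o := strictMono_nat_of_lt_succ fun k => hk3 (k + 1) (hk k) (hk1 k) (hk2 k)
  have ho' : ∀ k : ℕ, o 0 + k ≤ o k := by
    intro k
    induction k with
    | zero => simp
    | succ k ih =>
      have := ho (Nat.lt_add_one k)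
      push_cast
      omega
  let S : ℕ → LaurentSeries (ZMod p) := fun k => ∑ i ∈ Finset.range k, hk i
  have hS : ∀ k, S (k + 1) = S k + hk k := fun k => Finset.sum_range_succ _ _
  have hSH : ∀ k, S k ∈ H (Ns k) := by
    intro k
    induction k with
    | zero => simpa [S] using h0 (Ns 0)
    | succ k ih =>
      rw [hS]
      exact hadd _ _ _ (hmono (hNm k) ih) (hk1 k)
  have hst : ∀ (k j : ℕ) (n : ℤ), n < o k → (S (k + j)).coeff n = (S k).coeff n := by
    intro k j n hn
    induction j with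
    | zero => rfl
    | succ j ih =>
      rw [← add_assoc, hS, HahnSeries.coeff_add, ih]
      have h1 : n < HahnSeries.order (hk (k + j)) := hn.trans_le (ho.monotone (Nat.le_add_right k j))
      rw [HahnSeries.coeff_eq_zero_of_lt_order h1, add_zero]
  let K : ℤ → ℕ := fun n => (n - o 0 + 1).toNat
  have hK : ∀ n : ℤ, n < o (K n) := by
    intro n
    have h1 := ho' (K n)
    have h2 : n - o 0 + 1 ≤ (K n : ℤ) := Int.self_le_toNat _
    omega
  let f : ℤ → ZMod p := fun n => (S (K n)).coeff n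
  have hf : ∀ (k : ℕ) (n : ℤ), n < o k → f n = (S k).coeff n := by
    intro k n hn
    have h1 := hst k (K n) n hn
    have h2 := hst (K n) k n (hK n)
    change (S (K n)).coeff n = _
    rw [← h2, ← h1, add_comm]
  have hbd : BddBelow (Function.support f) := by
    refine ⟨o 0, fun n hn => ?_⟩
    by_contra hc
    rw [not_le] at hc
    apply hn
    rw [hf 0 n hc]
    simp [S]
  let s : LaurentSeries (ZMod p) := HahnSeries.ofSuppBddBelow f hbd
  have hs : ∀ n, s.coeff n = f n := fun n => congrFun HahnSeries.coeff_ofSuppBddBelow n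
  have hsk : ∀ k, s - S k ≠ 0 ∧ HahnSeries.order (s - S k) = o k := by
    intro k
    have h1 : (s - S k).coeff (o k) ≠ 0 := by
      rw [HahnSeries.coeff_sub, hs, hf (k + 1) (o k) (ho (Nat.lt_succ_self k)), hS,
        HahnSeries.coeff_add, add_sub_cancel_left]
      exact HahnSeries.coeff_order_eq_zero.not.2 (hk2 k)
    have h2 : s - S k ≠ 0 := by
      intro h
      rw [h] at h1
      exact h1 rfl
    refine ⟨h2, le_antisymm (HahnSeries.order_le_of_coeff_ne_zero h1) ?_⟩
    rw [← vle_iff h2]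
    intro n hn
    rw [HahnSeries.coeff_sub, hs, hf k n hn, sub_self]
  have hQ : ∀ k, S k ∈ QQ p H s := by
    intro k
    refine ⟨fun h => (hsk k).1 (by rw [h, sub_self]), Ns k, hSH k, fun h hh hne => ?_⟩
    rw [(hsk k).2]
    exact hk3 k h hh hne
  -- the general properties
  have key : ∀ g g' N N', g ∈ H N → g' ∈ H N' → N ≤ N' → g ≠ g' →
      (∀ h ∈ H N', h ≠ 0 → HahnSeries.order h < HahnSeries.order (s - g')) →
      HahnSeries.order (g - g') < HahnSeries.order (s - g') := by
    intro g g' N N' hg hg' hNN hne hlt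
    exact hlt _ (hsub _ _ _ (hmono hNN hg) hg') (sub_ne_zero.2 hne)
  refine ⟨s, ?_, ?_, ⟨S 0, hQ 0⟩, ?_⟩
  · -- injectivity
    have main : ∀ g g' N N', g ∈ H N → g' ∈ H N' → N ≤ N' →
        (∀ h ∈ H N', h ≠ 0 → HahnSeries.order h < HahnSeries.order (s - g')) →
        HahnSeries.order (s - g) = HahnSeries.order (s - g') → g = g' := by
      intro g g' N N' hg hg' hNN hlt ho
      by_contra hne
      have h1 := key g g' N N' hg hg' hNN hne hlt
      have h2 : g - g' = (s - g') - (s - g) := by ring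
      have h3 : (s - g') - (s - g) ≠ 0 := by rw [← h2]; exact sub_ne_zero.2 hne
      have h4 := order_sub_ge h3 le_rfl ho.ge
      rw [← h2] at h4
      omega
    rintro g ⟨-, N, hg, hlt⟩ g' ⟨-, N', hg', hlt'⟩ ho
    simp only at ho
    rcases le_total N N' with h | h
    · exact main g g' N N' hg hg' h hlt' ho
    · exact (main g' g N' N hg' hg h hlt ho.symm).symm
  · rintro g ⟨-, N, hg, hlt⟩
    refine (hfin N).subset ?_
    rintro x ⟨⟨hxs, Nx, hx, hltx⟩, hox⟩
    by_contra hcon
    have hN : N ≤ Nx := by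
      by_contra hc
      exact hcon (hmono (not_le.1 hc).le hx)
    have hne : g ≠ x := by
      rintro rfl
      exact lt_irrefl _ hox
    have h1 := key g x N Nx hg hx hN hne hltx
    have h2 : g - x = (s - x) - (s - g) := by ring
    have h3 : s - x ≠ 0 := sub_ne_zero.2 (Ne.symm hxs)
    have h4 := order_sub_eq h3 hox
    rw [← h2] at h4
    omega
  · intro g _
    obtain ⟨k, hk⟩ : ∃ k : ℕ, HahnSeries.order (s - g) < o k := by
      refine ⟨K (HahnSeries.order (s - g)), hK _⟩
    exact ⟨S k, hQ k, by rw [(hsk k).2]; exact hk⟩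

end Pool.Agent.Helper56K9.SO
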