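import Pool.Agent.Helper56K9.SO.Dual
import Pool.Agent.Helper56K9.SO.Ser

/-!
# Project SO, leaf HS (helper56)
-/

set_option autoImplicit false

namespace Pool.Agent.Helper56K9.SO

open Pool.Agent.Helper14K9.SO Pool.Agent.Y924.UF

section

variable {p : ℕ} [Fact p.Prime]

theorem mem_OO' (z : LaurentSeries (ZMod p)) : z ∈ OO p ↔ vle 0 z :=
  Pool.Agent.Y155.UF.mem_OO z

theorem vle_mul {r : LaurentSeries (ZMod p)} (hr : r ≠ 0) (M : ℤ) (z : LaurentSeries (ZMod p)) :
    vle M (r * z) ↔ vle (M - HahnSeries.order r) z := by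
  by_cases hz : z = 0
  · subst hz
    rw [mul_zero]
    exact ⟨fun _ => vle_zero _, fun _ => vle_zero _⟩
  · rw [vle_iff (mul_ne_zero hr hz), vle_iff hz, HahnSeries.order_mul hr hz]
    constructor <;> intro h <;> omega

theorem exists_OO {r : LaurentSeries (ZMod p)} (hr : r ≠ 0) (x : LaurentSeries (ZMod p)) :
    (∃ z, z ∈ OO p ∧ r * z = x) ↔ vle (HahnSeries.order r) x := by
  constructor
  · rintro ⟨z, hz, rfl⟩
    rw [vle_mul hr, sub_self]
    exact (mem_OO' z).1 hz
  · intro h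
    have h1 : r * (r⁻¹ * x) = x := by rw [← mul_assoc, mul_inv_cancel₀ hr, one_mul]
    refine ⟨r⁻¹ * x, (mem_OO' _).2 ?_, h1⟩
    have h2 := (vle_mul hr (HahnSeries.order r) (r⁻¹ * x)).1 (by rw [h1]; exact h)
    rwa [sub_self] at h2

/-- the values of the relation at the points of `x + t ^ N O` -/
def VB (S : Set (LaurentSeries (ZMod p))) (N : ℤ) (x : LaurentSeries (ZMod p)) :
    Set (LaurentSeries (ZMod p)) :=
  {y | ∃ x', vle N (x' - x) ∧ x' ^ p + HahnSeries.single (1 : ℤ) (1 : ZMod p) * y ^ p ∈ S}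

/-- the values of the relation at the points of `t ^ (- N) O` which are locally finite at distance
`N` -/
def FF (S : Set (LaurentSeries (ZMod p))) (N : ℤ) : Set (LaurentSeries (ZMod p)) :=
  {a | ∃ x, vle (-N) x ∧ x ^ p + HahnSeries.single (1 : ℤ) (1 : ZMod p) * a ^ p ∈ S ∧
    (VB S N x).Finite}

theorem finC_iff (hVAL : S_VAL) (hFIN : S_FIN) (X : Set (LaurentSeries (ZMod p))) :
    FinC p (HahnSeries.single (1 : ℤ) (1 : ZMod p)) X ↔ X.Finite := by
  have hval := (hVAL p).1
  rw [hFIN]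
  unfold FinC
  simp only [← hval]

theorem inF_iff (hVAL : S_VAL) (hFIN : S_FIN) (S : Set (LaurentSeries (ZMod p)))
    {r : LaurentSeries (ZMod p)} (hr : r ≠ 0) (a : LaurentSeries (ZMod p)) :
    InF p S (HahnSeries.single (1 : ℤ) (1 : ZMod p)) r a ↔ a ∈ FF S (HahnSeries.order r) := by
  have hval := (hVAL p).1
  unfold InF FF
  simp only [finC_iff hVAL hFIN]
  refine exists_congr fun x => and_congr ?_ (and_congr_right fun _ => ?_)
  · rw [← hval, mem_OO', mul_comm, vle_mul hr, zero_sub]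
  · have : Vals p S (HahnSeries.single (1 : ℤ) (1 : ZMod p)) r x = VB S (HahnSeries.order r) x := by
      unfold Vals VB
      simp only [← hval]
      ext y
      refine exists_congr fun x' => and_congr_left fun _ => ?_
      rw [← exists_OO hr]
      refine exists_congr fun z => and_congr_right fun _ => ?_
      constructor
      · intro h; rw [← h]; ring
      · intro h; rw [h]; ring
    rw [this]

theorem vb_mono (S : Set (LaurentSeries (ZMod p))) {N N' : ℤ} (h : N ≤ N')
    (x : LaurentSeries (ZMod p)) : VB S N' x ⊆ VB S N x := by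
  rintro y ⟨x', h1, h2⟩
  exact ⟨x', vle_mono h h1, h2⟩

theorem vb_eq (S : Set (LaurentSeries (ZMod p))) {N : ℤ} {x x₀ : LaurentSeries (ZMod p)}
    (h : vle N (x - x₀)) : VB S N x ⊆ VB S N x₀ := by
  rintro y ⟨x', h1, h2⟩
  refine ⟨x', fun n hn => ?_, h2⟩
  have e : x' - x₀ = (x' - x) + (x - x₀) := by ring
  rw [e, HahnSeries.coeff_add, h1 n hn, h n hn, add_zero]

theorem ff_mono (S : Set (LaurentSeries (ZMod p))) {N N' : ℤ} (h : N ≤ N') :
    FF S N ⊆ FF S N' := by
  rintro a ⟨x, h1, h2, h3⟩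
  exact ⟨x, vle_mono (by omega) h1, h2, h3.subset (vb_mono S h x)⟩

theorem single_ne (N : ℤ) : (HahnSeries.single N (1 : ZMod p) : LaurentSeries (ZMod p)) ≠ 0 :=
  HahnSeries.single_ne_zero one_ne_zero

theorem order_single (N : ℤ) :
    HahnSeries.order (HahnSeries.single N (1 : ZMod p) : LaurentSeries (ZMod p)) = N :=
  HahnSeries.order_single one_ne_zero

/-- bounded and separated sets are finite -/
theorem fin_of (hFIN : S_FIN) (X : Set (LaurentSeries (ZMod p))) (K N : ℤ)
    (h1 : ∀ x ∈ X, vle K x) (h2 : ∀ x ∈ X, ∀ y ∈ X, vle N (x - y) → x = y) : X.Finite := by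
  rw [hFIN]
  refine ⟨HahnSeries.single N 1, HahnSeries.single K 1, single_ne N, single_ne K, ?_, ?_⟩
  · intro x hx
    rw [exists_OO (single_ne K), order_single]
    exact h1 x hx
  · rintro x y hx hy ⟨z, y', hz, hb, hxy⟩
    refine h2 x hx y hy ?_
    have h3 : x - y = y' := by rw [← hxy]; ring
    rw [h3]
    have h4 := (exists_OO (single_ne N) y').1 ⟨z, hz, hb⟩
    rwa [order_single] at h4

theorem ff_finite (S : Set (LaurentSeries (ZMod p))) (N : ℤ) : (FF S N).Finite := by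
  classical
  let cl : LaurentSeries (ZMod p) → ((Finset.Ico (-N) N) → ZMod p) := fun x n => x.coeff n
  let W : ((Finset.Ico (-N) N) → ZMod p) → Set (LaurentSeries (ZMod p)) := fun v =>
    {a | ∃ x, vle (-N) x ∧ cl x = v ∧ a ∈ VB S N x ∧ (VB S N x).Finite}
  have hcov : FF S N ⊆ ⋃ v, W v := by
    rintro a ⟨x, h1, h2, h3⟩
    refine Set.mem_iUnion.2 ⟨cl x, x, h1, rfl, ⟨x, ?_, h2⟩, h3⟩
    rw [sub_self]
    exact vle_zero _
  refine (Set.finite_iUnion fun v => ?_).subset hcov
  rcases (W v).eq_empty_or_nonempty with h | ⟨a, x₀, h1, h2, -, h4⟩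
  · rw [h]
    exact Set.finite_empty
  · refine h4.subset ?_
    rintro b ⟨x, h1', h2', h3', -⟩
    refine vb_eq S (fun n hn => ?_) h3'
    rw [HahnSeries.coeff_sub]
    by_cases hnN : n < -N
    · rw [h1 n hnN, h1' n hnN, sub_self]
    · have hmem : n ∈ Finset.Ico (-N) N := Finset.mem_Ico.2 ⟨not_lt.1 hnN, hn⟩
      have e := congrFun (h2'.trans h2.symm) ⟨n, hmem⟩
      exact sub_eq_zero.2 e

/-- ... and the inverses -/
def GG (S : Set (LaurentSeries (ZMod p))) (N : ℤ) : Set (LaurentSeries (ZMod p)) :=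
  FF S N ∪ {a' | ∃ a ∈ FF S N, a * a' = 1}

theorem gg_finite (S : Set (LaurentSeries (ZMod p))) (N : ℤ) :
    (GG S N).Finite := by
  refine (ff_finite S N).union (((ff_finite S N).image fun a => a⁻¹).subset ?_)
  rintro a' ⟨a, ha, h⟩
  exact ⟨a, ha, (eq_inv_of_mul_eq_one_right h).symm⟩

theorem gg_mono (S : Set (LaurentSeries (ZMod p))) {N N' : ℤ} (h : N ≤ N') :
    GG S N ⊆ GG S N' := by
  rintro a (ha | ⟨b, hb, hab⟩)
  · exact Or.inl (ff_mono S h ha)
  · exact Or.inr ⟨b, ff_mono S h hb, hab⟩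

theorem dd_mono {F F' : Set (LaurentSeries (ZMod p))} (h : F ⊆ F') : DD F ⊆ DD F' :=
  fun _ hy c hc => hy c fun a ha => hc a (h ha)

theorem sub_dd (F : Set (LaurentSeries (ZMod p))) : F ⊆ DD F := fun _ ha _ hc => hc _ ha

end

theorem hs : S_VAL → S_RES → S_FIN → S_HS := by
  intro hVAL hRES hFIN p _ S hinf
  refine ⟨fun N => DD (GG S N), ⟨fun N => dd_finite _ (gg_finite S N), ?_, ?_, ?_, ?_⟩, ?_⟩
  · intro N c _
    rw [mul_zero]
    rfl
  · intro N x y hx hy c hc
    rw [mul_sub, HahnSeries.coeff_sub, hx c hc, hy c hc, sub_zero]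
  · intro N N' h
    exact dd_mono (gg_mono S h)
  · intro M
    by_contra hcon
    push Not at hcon
    -- isolated points
    have hiso : ∀ a ∈ LFS p S, ∃ N₀ : ℤ, ∀ N, N₀ ≤ N → a ∈ FF S N := by
      rintro a ⟨x, ha, b, hb, hab⟩
      refine ⟨max (HahnSeries.order b) (-(HahnSeries.order x)), fun N hN => ?_⟩
      have h1 : HahnSeries.order b ≤ N := (le_max_left _ _).trans hN
      have h2 : -(HahnSeries.order x) ≤ N := (le_max_right _ _).trans hN
      refine ⟨x, vle_mono (by omega) (vle_order x), ha, hab.subset ?_⟩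
      rintro y ⟨x', hx', hy⟩
      obtain ⟨z, hz, hbz⟩ := (exists_OO hb (x' - x)).2 (vle_mono h1 hx')
      refine ⟨z, hz, ?_⟩
      have e : x + b * z = x' := by rw [hbz]; ring
      rw [e]
      exact hy
    have hsep : ∀ x ∈ LFS p S, ∀ y ∈ LFS p S, vle M (x - y) → x = y := by
      intro x hx y hy h
      by_contra hne
      obtain ⟨N₁, h1⟩ := hiso x hx
      obtain ⟨N₂, h2⟩ := hiso y hy
      have h3 := h1 (max N₁ N₂) (le_max_left _ _)
      have h4 := h2 (max N₁ N₂) (le_max_right _ _)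
      have hne' : x - y ≠ 0 := sub_ne_zero.2 hne
      have h5 := hcon (max N₁ N₂) (x - y) (by
        intro c hc
        rw [mul_sub, HahnSeries.coeff_sub, hc x (Or.inl h3), hc y (Or.inl h4), sub_zero]) hne'
      have h6 := (vle_iff hne').1 h
      omega
    have hub : ∃ a ∈ LFS p S, ¬ vle (-M) a := by
      by_contra hc
      push Not at hc
      exact hinf (fin_of hFIN _ (-M) M hc hsep)
    obtain ⟨a, ha, hna⟩ := hub
    have ha0 : a ≠ 0 := fun h => hna (h ▸ vle_zero _)
    rw [vle_iff ha0, not_le] at hna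
    obtain ⟨N₁, h1⟩ := hiso a ha
    have h3 := h1 N₁ le_rfl
    have h4 := hcon N₁ a⁻¹ (sub_dd _ (Or.inr ⟨a, h3, mul_inv_cancel₀ ha0⟩)) (inv_ne_zero ha0)
    have h5 : HahnSeries.order (a * a⁻¹) = HahnSeries.order a + HahnSeries.order a⁻¹ :=
      HahnSeries.order_mul ha0 (inv_ne_zero ha0)
    rw [mul_inv_cancel₀ ha0, HahnSeries.order_one] at h5
    omega
  · intro r hr y
    unfold InH
    simp only [inF_iff hVAL hFIN S hr, hRES p]
    refine forall_congr' fun c => ?_
    have : (∀ a, a ∈ FF S (HahnSeries.order r) → (c * a).coeff 0 = 0 ∧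
        ∀ a', a * a' = 1 → (c * a').coeff 0 = 0) ↔
        ∀ a ∈ GG S (HahnSeries.order r), (c * a).coeff 0 = 0 := by
      constructor
      · rintro h a (ha | ⟨b, hb, hab⟩)
        · exact (h a ha).1
        · exact (h b hb).2 a hab
      · intro h a ha
        exact ⟨h a (Or.inl ha), fun a' ha' => h a' (Or.inr ⟨a, ha, ha'⟩)⟩
    rw [this]

end Pool.Agent.Helper56K9.SO
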