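import Pool.Agent.Helper14K9.SO.St

/-!
# Project SO, leaf DUAL (helper56)
-/

set_option autoImplicit false

namespace Pool.Agent.Helper56K9.SO

open Pool.Agent.Helper14K9.SO Pool.Agent.Y924.UF

section

variable {p : ℕ} [Fact p.Prime]

/-- the double orthogonal complement -/
def DD (F : Set (LaurentSeries (ZMod p))) : Set (LaurentSeries (ZMod p)) :=
  {y | ∀ c : LaurentSeries (ZMod p), (∀ a ∈ F, (c * a).coeff 0 = 0) → (c * y).coeff 0 = 0}

theorem coeff_smul' (k : ZMod p) (c a : LaurentSeries (ZMod p)) :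
    (c * (k • a)).coeff 0 = k * (c * a).coeff 0 := by
  rw [mul_smul_comm, HahnSeries.coeff_smul, smul_eq_mul]

theorem dd_insert (F : Set (LaurentSeries (ZMod p))) (a : LaurentSeries (ZMod p)) :
    DD (insert a F) ⊆ ⋃ k : ZMod p, (fun y => k • a + y) '' DD F := by
  intro y hy
  rw [Set.mem_iUnion]
  by_cases h : ∀ c : LaurentSeries (ZMod p), (∀ b ∈ F, (c * b).coeff 0 = 0) →
      (c * a).coeff 0 = 0
  · refine ⟨0, y, fun c hc => hy c ?_, by simp⟩
    intro b hb
    rcases Set.mem_insert_iff.1 hb with rfl | hb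
    · exact h c hc
    · exact hc b hb
  · push Not at h
    obtain ⟨c₀, hc₀, hu⟩ := h
    set u := (c₀ * a).coeff 0 with hudef
    refine ⟨(c₀ * y).coeff 0 / u, y - ((c₀ * y).coeff 0 / u) • a, ?_, add_sub_cancel _ _⟩
    intro c hc
    set m := (c * a).coeff 0 / u with hm
    have h1 := hy (c - m • c₀) (by
      intro b hb
      rw [sub_mul, smul_mul_assoc, HahnSeries.coeff_sub, HahnSeries.coeff_smul, smul_eq_mul]
      rcases Set.mem_insert_iff.1 hb with rfl | hb
      · rw [hm, ← hudef, div_mul_cancel₀ _ hu, sub_self]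
      · rw [hc b hb, hc₀ b hb, mul_zero, sub_zero])
    rw [sub_mul, smul_mul_assoc, HahnSeries.coeff_sub, HahnSeries.coeff_smul, smul_eq_mul] at h1
    rw [mul_sub, HahnSeries.coeff_sub, coeff_smul']
    have h2 : (c * y).coeff 0 = m * (c₀ * y).coeff 0 := sub_eq_zero.1 h1
    rw [h2, hm]
    field_simp
    ring

theorem dd_finite (F : Set (LaurentSeries (ZMod p))) (hF : F.Finite) : (DD F).Finite := by
  induction F, hF using Set.Finite.induction_on with
  | empty =>
    refine (Set.finite_singleton (0 : LaurentSeries (ZMod p))).subset ?_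
    intro y hy
    rw [Set.mem_singleton_iff]
    by_contra h
    obtain ⟨s, hs⟩ := lam_nondeg p y h
    exact hs (hy s (fun a ha => absurd ha (Set.notMem_empty a)))
  | insert _ _ ih =>
    exact (Set.finite_iUnion fun k => ih.image _).subset (dd_insert _ _)

end

theorem dual : S_DUAL := fun p _ F hF => dd_finite (p := p) F hF

end Pool.Agent.Helper56K9.SO
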